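import Pool.Agent.H2.OsC

namespace Pool.Agent.Results.MP_8e06fd_an.NonCompl

open Set Filter Topology
open scoped unitInterval

/-- oscillation of `f` on `I(t,d) = [0,1] ∩ [t-d, t+d]` -/
noncomputable def osc (f : C(I, ℝ)) (t : I) (d : ℝ) : ℝ :=
  sSup {x | ∃ s u : I, |(s : ℝ) - t| ≤ d ∧ |(u : ℝ) - t| ≤ d ∧ x = |f s - f u|}

/-- the function `Γ_X` -/
noncomputable def Gam (X : Submodule ℝ C(I, ℝ)) (t : I) : ℝ :=
  sSup {a | 0 ≤ a ∧ ∀ d > 0, ∃ f ∈ X, ‖f‖ = 1 ∧ a < osc f t d}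

/-- the oscillating spectrum `Ω(X)` -/
def Om (X : Submodule ℝ C(I, ℝ)) : Set I := {t | 0 < Gam X t}

/-- there is a bounded linear projection of `C[0,1]` with range `X` -/
def Complemented (X : Submodule ℝ C(I, ℝ)) : Prop :=
  ∃ P : C(I, ℝ) →L[ℝ] C(I, ℝ), (∀ f, P (P f) = P f) ∧ range P = X

lemma osc_le (f : C(I, ℝ)) (t : I) (d : ℝ) {r : ℝ} (hr : 0 ≤ r)
    (h : ∀ s u : I, |(s : ℝ) - t| ≤ d → |(u : ℝ) - t| ≤ d → |f s - f u| ≤ r) : osc f t d ≤ r :=
  Real.sSup_le (by rintro x ⟨s, u, hs, hu, rfl⟩; exact h s u hs hu) hr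

lemma diff_le (f : C(I, ℝ)) (s u : I) : |f s - f u| ≤ 2 * ‖f‖ := by
  have h1 := f.norm_coe_le_norm s
  have h2 := f.norm_coe_le_norm u
  rw [Real.norm_eq_abs, abs_le] at h1 h2
  rw [abs_le]; constructor <;> linarith

lemma le_osc (f : C(I, ℝ)) (t : I) {d : ℝ} (hd : 0 < d) (s : I) (hs : dist s t ≤ d) :
    |f s - f t| ≤ osc f t d :=
  le_csSup ⟨2 * ‖f‖, by rintro x ⟨s, u, _, _, rfl⟩; exact diff_le f s u⟩
    ⟨s, t, hs, by simpa using hd.le, rfl⟩

theorem result (M : Set I) (hne : M.Nonempty)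
    (hM : ∃ F : ℕ → Set I, (∀ k, IsClosed (F k)) ∧ M = ⋃ k, F k) :
    ∃ X : Submodule ℝ C(I, ℝ), IsClosed (X : Set C(I, ℝ)) ∧ Om X = M ∧ ¬ Complemented X := by
  obtain ⟨F, hF, hM⟩ := hM
  obtain ⟨X, h1, h2, h3, h4⟩ := Pool.Agent.H2.Os.main M hne F hF hM
  refine ⟨X, h1, ?_, ?_⟩
  · ext t
    constructor
    · intro ht
      by_contra htM
      have : Gam X t ≤ 0 := by
        refine Real.sSup_le ?_ le_rfl
        rintro a ⟨_, ha⟩
        refine le_of_forall_pos_le_add fun ε hε => ?_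
        obtain ⟨δ, hδ, hb⟩ := Metric.nhds_basis_closedBall.eventually_iff.1
          (h3 t htM (ε / 2) (half_pos hε))
        obtain ⟨f, hf, hf1, hfa⟩ := ha δ hδ
        have := osc_le f t δ hε.le fun s u hs hu => by
          have a1 := hb (x := s) hs f hf
          have a2 := hb (x := u) hu f hf
          rw [hf1, abs_le] at a1 a2
          rw [abs_le]; constructor <;> linarith [a1.1, a1.2, a2.1, a2.2]
        linarith
      exact absurd ht (not_lt.2 this)
    · intro ht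
      obtain ⟨a, ha, C, hC, h⟩ := h2 t ht
      refine lt_of_lt_of_le (by positivity : 0 < a / C / 2) (le_csSup ⟨2, ?_⟩
        ⟨by positivity, fun d hd => ?_⟩)
      · rintro b ⟨_, hb⟩
        obtain ⟨f, _, hf1, hfa⟩ := hb 1 one_pos
        have := osc_le f t 1 (by positivity) fun s u _ _ => diff_le f s u
        rw [hf1] at this
        linarith
      · obtain ⟨f, hf, hfC, s, hs, hfs⟩ := h d hd
        have hf0 : 0 < ‖f‖ := by linarith [diff_le f s t]
        refine ⟨‖f‖⁻¹ • f, X.smul_mem _ hf, by rw [norm_smul, norm_inv, norm_norm]; field_simp,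
          lt_of_lt_of_le ?_ (le_osc _ t hd s hs)⟩
        simp only [ContinuousMap.smul_apply, smul_eq_mul]
        rw [← mul_sub, abs_mul, abs_of_pos (inv_pos.2 hf0), inv_mul_eq_div]
        refine lt_of_lt_of_le (half_lt_self (by positivity)) ?_
        gcongr
  · rintro ⟨P, hP, hR⟩
    refine h4 ⟨P, fun f => ?_, fun f hf => ?_⟩
    · have : P f ∈ range P := mem_range_self f
      rwa [hR] at this
    · have : f ∈ range P := by rw [hR]; exact hf
      obtain ⟨g, rfl⟩ := this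
      exact hP g

end Pool.Agent.Results.MP_8e06fd_an.NonCompl
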